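import Mathlib
import Pool.Agent.H789R4.Ind

set_option autoImplicit false
set_option linter.style.haveILetI false
set_option linter.unusedSectionVars false

namespace Pool.Agent.Results.MP_236c69_co.FacetSwap

open Finset

/-- the plane -/
abbrev Pl := Fin 2 → ℝ

/-- the centrally symmetric convex quadrilateral with vertices `A, B, -A, -B` -/
def quad (A B : Pl) : Set Pl := convexHull ℝ {A, B, -A, -B}

/-- the end points of the four facets (edges) of `quad A B`, in cyclic order;
the facet with end points `e` is `segment ℝ e.1 e.2` -/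
def facetEnds (A B : Pl) : Set (Pl × Pl) := {(A, B), (B, -A), (-A, -B), (-B, A)}

/-- `x` lies in the cone over the relative interior of the facet with end points `e` -/
def InCone (e : Pl × Pl) (x : Pl) : Prop :=
  ∃ c : ℝ, 0 < c ∧ ∃ y ∈ openSegment ℝ e.1 e.2, x = c • y

/-- well-positioned placement `p` of `G` for the norm with unit ball `quad A B` -/
def WellPositioned {V : Type} (A B : Pl) (G : SimpleGraph V) (p : V → Pl) : Prop :=
  ∀ v w, G.Adj v w → ∃ e ∈ facetEnds A B, InCone e (p v - p w)

/-- infinitesimal flex: for each edge `vw`, the linear functional `φ` that equals 1 on the facet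
whose cone contains `p v - p w` kills `u v - u w` -/
def IsFlex {V : Type} (A B : Pl) (G : SimpleGraph V) (p u : V → Pl) : Prop :=
  ∀ v w, G.Adj v w → ∀ e ∈ facetEnds A B, InCone e (p v - p w) →
    ∀ φ : Pl →ₗ[ℝ] ℝ, (∀ x ∈ segment ℝ e.1 e.2, φ x = 1) → φ (u v - u w) = 0

/-- infinitesimally rigid: every infinitesimal flex is constant -/
def InfRigid {V : Type} (A B : Pl) (G : SimpleGraph V) (p : V → Pl) : Prop :=
  ∀ u : V → Pl, IsFlex A B G p u → ∃ t : Pl, ∀ v, u v = t

/-- isostatic: infinitesimally rigid, and deleting any edge destroys this -/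
def Isostatic {V : Type} (A B : Pl) (G : SimpleGraph V) (p : V → Pl) : Prop :=
  InfRigid A B G p ∧ ∀ e ∈ G.edgeSet, ¬ InfRigid A B (G.deleteEdges {e}) p

/-- `(2,2)`-tight -/
def Tight22 {V : Type} [Fintype V] (G : SimpleGraph V) : Prop :=
  G.edgeSet.ncard + 2 = 2 * Fintype.card V ∧
    ∀ H : G.Subgraph, H.verts.Nonempty → H.edgeSet.ncard + 2 ≤ 2 * H.verts.ncard

/-- the linear map `τ` preserves the facets: each facet is mapped to itself or its negative -/
def PreservesFacets (A B : Pl) (τ : Pl →ₗ[ℝ] Pl) : Prop :=
  ∀ e ∈ facetEnds A B, τ '' segment ℝ e.1 e.2 = segment ℝ e.1 e.2 ∨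
    τ '' segment ℝ e.1 e.2 = segment ℝ (-e.1) (-e.2)

section frame
variable {V : Type} [Fintype V] (A B : Pl) (hAB : LinearIndependent ℝ ![A, B])
include hAB

theorem exists_coords : ∃ f g : Pl →ₗ[ℝ] ℝ, f A = 1 ∧ f B = 0 ∧ g A = 0 ∧ g B = 1 ∧
    ∀ x, x = f x • A + g x • B := by
  let b := basisOfLinearIndependentOfCardEqFinrank hAB (by simp)
  have hb : ⇑b = ![A, B] := coe_basisOfLinearIndependentOfCardEqFinrank _ _
  have h0 : b 0 = A := by rw [hb]; rfl
  have h1 : b 1 = B := by rw [hb]; rfl
  refine ⟨b.coord 0, b.coord 1, ?_, ?_, ?_, ?_, ?_⟩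
  · rw [← h0]; simp
  · rw [← h1]; simp
  · rw [← h0]; simp
  · rw [← h1]; simp
  · intro x
    have := b.sum_repr x
    rw [Fin.sum_univ_two, h0, h1] at this
    exact this.symm

theorem cone_cases (x y : ℝ) (hxy : x * y ≠ 0) : ∃ e ∈ facetEnds A B, InCone e (x • A + y • B) := by
  have hx : x ≠ 0 := left_ne_zero_of_mul hxy
  have hy : y ≠ 0 := right_ne_zero_of_mul hxy
  have key : ∀ (C D : Pl) (s t : ℝ), 0 < s → 0 < t → InCone (C, D) (s • C + t • D) := by
    intro C D s t hs ht
    refine ⟨s + t, by linarith, (s / (s + t)) • C + (t / (s + t)) • D,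
      ⟨s / (s + t), t / (s + t), by positivity, by positivity, ?_, rfl⟩, ?_⟩
    · field_simp
    · rw [smul_add, smul_smul, smul_smul]
      have : s + t ≠ 0 := by linarith
      field_simp
  rcases lt_or_gt_of_ne hx with hx | hx <;> rcases lt_or_gt_of_ne hy with hy | hy
  · refine ⟨(-A, -B), by simp [facetEnds], ?_⟩
    have := key (-A) (-B) (-x) (-y) (by linarith) (by linarith)
    simpa using this
  · refine ⟨(B, -A), by simp [facetEnds], ?_⟩
    have := key B (-A) y (-x) (by linarith) (by linarith)
    rw [neg_smul_neg, add_comm] at this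
    exact this
  · refine ⟨(-B, A), by simp [facetEnds], ?_⟩
    have := key (-B) A (-y) x (by linarith) (by linarith)
    rw [neg_smul_neg, add_comm] at this
    exact this
  · exact ⟨(A, B), by simp [facetEnds], key A B x y hx hy⟩

/-- description of the flex condition in coordinates -/
theorem flex_iff (f g : Pl →ₗ[ℝ] ℝ) (hfA : f A = 1) (hfB : f B = 0) (hgA : g A = 0) (hgB : g B = 1)
    (hfg : ∀ x, x = f x • A + g x • B) (x y : ℝ) (hxy : x * y ≠ 0) (z : Pl) :
    (∀ e ∈ facetEnds A B, InCone e (x • A + y • B) →
      ∀ φ : Pl →ₗ[ℝ] ℝ, (∀ x ∈ segment ℝ e.1 e.2, φ x = 1) → φ z = 0) ↔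
    ((0 < x * y → f z + g z = 0) ∧ (x * y < 0 → f z - g z = 0)) := by
  have hcone : ∀ (C D : Pl) (w : Pl), InCone (C, D) w →
      ∃ s t : ℝ, 0 < s ∧ 0 < t ∧ w = s • C + t • D := by
    rintro C D w ⟨c, hc, y', ⟨s, t, hs, ht, -, rfl⟩, rfl⟩
    refine ⟨c * s, c * t, by positivity, by positivity, ?_⟩
    rw [smul_add, smul_smul, smul_smul]
  have hf : f (x • A + y • B) = x := by
    rw [map_add, map_smul, map_smul, hfA, hfB]; simp
  have hg : g (x • A + y • B) = y := by
    rw [map_add, map_smul, map_smul, hgA, hgB]; simp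
  have hφ : ∀ φ : Pl →ₗ[ℝ] ℝ, φ z = f z * φ A + g z * φ B := by
    intro φ
    conv_lhs => rw [hfg z]
    rw [map_add, map_smul, map_smul, smul_eq_mul, smul_eq_mul]
  constructor
  · intro h
    obtain ⟨e, he, hcone'⟩ := cone_cases A B hAB x y hxy
    constructor
    · intro hpos
      have h1 := h e he hcone'
      simp only [facetEnds, Set.mem_insert_iff, Set.mem_singleton_iff] at he
      rcases he with rfl | rfl | rfl | rfl
      · have h2 := h1 (f + g) (by
          rintro w ⟨s, t, hs, ht, hst, rfl⟩
          simp only [LinearMap.add_apply, map_add, map_smul, hfA, hfB, hgA, hgB, smul_eq_mul]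
          linarith)
        simpa using h2
      · obtain ⟨s, t, hs, ht, hst⟩ := hcone _ _ _ hcone'
        have e1 := congrArg f hst
        have e2 := congrArg g hst
        rw [hf] at e1
        rw [hg] at e2
        simp only [map_add, map_smul, map_neg, hfA, hfB, hgA, hgB, smul_eq_mul] at e1 e2
        exfalso
        rw [e1, e2] at hpos
        nlinarith [mul_pos hs ht]
      · have h2 := h1 (-(f + g)) (by
          rintro w ⟨s, t, hs, ht, hst, rfl⟩
          simp only [LinearMap.add_apply, LinearMap.neg_apply, map_add, map_smul, map_neg,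
            hfA, hfB, hgA, hgB, smul_eq_mul]
          linarith)
        simp only [LinearMap.neg_apply, LinearMap.add_apply, neg_eq_zero] at h2
        exact h2
      · obtain ⟨s, t, hs, ht, hst⟩ := hcone _ _ _ hcone'
        have e1 := congrArg f hst
        have e2 := congrArg g hst
        rw [hf] at e1
        rw [hg] at e2
        simp only [map_add, map_smul, map_neg, hfA, hfB, hgA, hgB, smul_eq_mul] at e1 e2
        exfalso
        rw [e1, e2] at hpos
        nlinarith [mul_pos hs ht]
    · intro hneg
      have h1 := h e he hcone'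
      simp only [facetEnds, Set.mem_insert_iff, Set.mem_singleton_iff] at he
      rcases he with rfl | rfl | rfl | rfl
      · obtain ⟨s, t, hs, ht, hst⟩ := hcone _ _ _ hcone'
        have e1 := congrArg f hst
        have e2 := congrArg g hst
        rw [hf] at e1
        rw [hg] at e2
        simp only [map_add, map_smul, map_neg, hfA, hfB, hgA, hgB, smul_eq_mul] at e1 e2
        exfalso
        rw [e1, e2] at hneg
        nlinarith [mul_pos hs ht]
      · have h2 := h1 (g - f) (by
          rintro w ⟨s, t, hs, ht, hst, rfl⟩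
          simp only [LinearMap.sub_apply, map_add, map_smul, map_neg, hfA, hfB, hgA, hgB,
            smul_eq_mul]
          linarith)
        simp only [LinearMap.sub_apply] at h2
        linarith
      · obtain ⟨s, t, hs, ht, hst⟩ := hcone _ _ _ hcone'
        have e1 := congrArg f hst
        have e2 := congrArg g hst
        rw [hf] at e1
        rw [hg] at e2
        simp only [map_add, map_smul, map_neg, hfA, hfB, hgA, hgB, smul_eq_mul] at e1 e2
        exfalso
        rw [e1, e2] at hneg
        nlinarith [mul_pos hs ht]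
      · have h2 := h1 (f - g) (by
          rintro w ⟨s, t, hs, ht, hst, rfl⟩
          simp only [LinearMap.sub_apply, map_add, map_smul, map_neg, hfA, hfB, hgA, hgB,
            smul_eq_mul]
          linarith)
        simp only [LinearMap.sub_apply] at h2
        exact h2
  · rintro ⟨h1, h2⟩ e he hc φ hφ1
    have hφe1 := hφ1 e.1 (left_mem_segment ℝ _ _)
    have hφe2 := hφ1 e.2 (right_mem_segment ℝ _ _)
    rw [hφ]
    simp only [facetEnds, Set.mem_insert_iff, Set.mem_singleton_iff] at he
    rcases he with rfl | rfl | rfl | rfl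
    · obtain ⟨s, t, hs, ht, hst⟩ := hcone _ _ _ hc
      have e1 := congrArg f hst
      have e2 := congrArg g hst
      rw [hf] at e1
      rw [hg] at e2
      simp only [map_add, map_smul, map_neg, hfA, hfB, hgA, hgB, smul_eq_mul] at e1 e2
      have hpos : 0 < x * y := by
        rw [e1, e2]
        nlinarith [mul_pos hs ht]
      simp only at hφe1 hφe2
      rw [hφe1, hφe2]
      linarith [h1 hpos]
    · obtain ⟨s, t, hs, ht, hst⟩ := hcone _ _ _ hc
      have e1 := congrArg f hst
      have e2 := congrArg g hst
      rw [hf] at e1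
      rw [hg] at e2
      simp only [map_add, map_smul, map_neg, hfA, hfB, hgA, hgB, smul_eq_mul] at e1 e2
      have hneg : x * y < 0 := by
        rw [e1, e2]
        nlinarith [mul_pos hs ht]
      simp only [map_neg] at hφe1 hφe2
      have hA : φ A = -1 := by linarith
      rw [hφe1, hA]
      linarith [h2 hneg]
    · obtain ⟨s, t, hs, ht, hst⟩ := hcone _ _ _ hc
      have e1 := congrArg f hst
      have e2 := congrArg g hst
      rw [hf] at e1
      rw [hg] at e2
      simp only [map_add, map_smul, map_neg, hfA, hfB, hgA, hgB, smul_eq_mul] at e1 e2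
      have hpos : 0 < x * y := by
        rw [e1, e2]
        nlinarith [mul_pos hs ht]
      simp only [map_neg] at hφe1 hφe2
      have hA : φ A = -1 := by linarith
      have hB : φ B = -1 := by linarith
      rw [hA, hB]
      linarith [h1 hpos]
    · obtain ⟨s, t, hs, ht, hst⟩ := hcone _ _ _ hc
      have e1 := congrArg f hst
      have e2 := congrArg g hst
      rw [hf] at e1
      rw [hg] at e2
      simp only [map_add, map_smul, map_neg, hfA, hfB, hgA, hgB, smul_eq_mul] at e1 e2
      have hneg : x * y < 0 := by
        rw [e1, e2]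
        nlinarith [mul_pos hs ht]
      simp only [map_neg] at hφe1 hφe2
      have hB : φ B = -1 := by linarith
      rw [hφe2, hB]
      linarith [h2 hneg]

theorem frame_main (G : SimpleGraph V) (hG : G.edgeSet.ncard + 2 = 2 * Fintype.card V)
    (α β : V → ℝ) (hne : ∀ v w, G.Adj v w → (α v - α w) * (β v - β w) ≠ 0)
    (hT : ∀ h : V → ℝ, (∀ v w, G.Adj v w → 0 < (α v - α w) * (β v - β w) → h v = h w) →
      ∀ v w, h v = h w)
    (hR : ∀ h : V → ℝ, (∀ v w, G.Adj v w → (α v - α w) * (β v - β w) < 0 → h v = h w) →
      ∀ v w, h v = h w) :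
    WellPositioned A B G (fun v => α v • A + β v • B) ∧
      Isostatic A B G (fun v => α v • A + β v • B) := by
  classical
  obtain ⟨f, g, hfA, hfB, hgA, hgB, hfg⟩ := exists_coords A B hAB
  have hdiff : ∀ v w : V, (α v • A + β v • B) - (α w • A + β w • B) =
      (α v - α w) • A + (β v - β w) • B := by
    intro v w
    rw [sub_smul, sub_smul]
    abel
  have hflex : ∀ (H : SimpleGraph V), H ≤ G → ∀ u : V → Pl,
      (IsFlex A B H (fun v => α v • A + β v • B) u ↔
      ∀ v w, H.Adj v w →
        ((0 < (α v - α w) * (β v - β w) → f (u v - u w) + g (u v - u w) = 0) ∧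
        ((α v - α w) * (β v - β w) < 0 → f (u v - u w) - g (u v - u w) = 0))) := by
    intro H hH u
    unfold IsFlex
    refine forall_congr' (fun v => forall_congr' (fun w => forall_congr' (fun hvw => ?_)))
    dsimp only
    rw [hdiff]
    exact flex_iff A B hAB f g hfA hfB hgA hgB hfg _ _ (hne v w (hH hvw)) (u v - u w)
  refine ⟨?_, ?_, ?_⟩
  · intro v w hvw
    dsimp only
    rw [hdiff]
    exact cone_cases A B hAB _ _ (hne v w hvw)
  · intro u hu
    rw [hflex G le_rfl] at hu
    have h1 := hT (fun v => f (u v) + g (u v)) (by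
      intro v w hvw hpos
      have := (hu v w hvw).1 hpos
      rw [map_sub, map_sub] at this
      linarith)
    have h2 := hR (fun v => f (u v) - g (u v)) (by
      intro v w hvw hneg
      have := (hu v w hvw).2 hneg
      rw [map_sub, map_sub] at this
      linarith)
    by_cases hV : Nonempty V
    · obtain ⟨v0⟩ := hV
      refine ⟨u v0, fun v => ?_⟩
      have e1 := h1 v v0
      have e2 := h2 v v0
      have e3 : f (u v) = f (u v0) := by linarith
      have e4 : g (u v) = g (u v0) := by linarith
      rw [hfg (u v), e3, e4, ← hfg (u v0)]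
    · exact ⟨0, fun v => (hV ⟨v⟩).elim⟩
  · intro e he hrig
    -- dimension count
    let H := G.deleteEdges {e}
    have hH : H ≤ G := SimpleGraph.deleteEdges_le _
    have hV : Nonempty V := by
      induction e using Sym2.ind with
      | _ a b => exact ⟨a⟩
    obtain ⟨v0⟩ := hV
    have hHcard : Fintype.card H.edgeSet + 3 = 2 * Fintype.card V := by
      have h1 : H.edgeSet = G.edgeSet \ {e} := SimpleGraph.edgeSet_deleteEdges _
      have h2 : H.edgeSet.ncard = G.edgeSet.ncard - 1 := by
        rw [h1]
        exact Set.ncard_sdiff_singleton_of_mem he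
      have h3 : 0 < G.edgeSet.ncard := by
        rw [Set.ncard_pos (Set.toFinite _)]
        exact ⟨e, he⟩
      have h4 : H.edgeSet.ncard = Fintype.card H.edgeSet := by
        rw [← Nat.card_coe_set_eq, Nat.card_eq_fintype_card]
      omega
    let pr : V → V → ((V → ℝ) →ₗ[ℝ] ℝ) := fun v w =>
      (LinearMap.proj (R := ℝ) (φ := fun _ : V => ℝ) v) -
        (LinearMap.proj (R := ℝ) (φ := fun _ : V => ℝ) w)
    have hpr : ∀ v w y, pr v w y = y v - y w := fun v w y => rfl
    let row : V → V → (((V → ℝ) × (V → ℝ)) →ₗ[ℝ] ℝ) := fun v w =>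
      if 0 < (α v - α w) * (β v - β w) then pr v w ∘ₗ LinearMap.fst ℝ (V → ℝ) (V → ℝ)
      else pr v w ∘ₗ LinearMap.snd ℝ (V → ℝ) (V → ℝ)
    let L : ((V → ℝ) × (V → ℝ)) →ₗ[ℝ] (H.edgeSet → ℝ) :=
      LinearMap.pi (fun ed : H.edgeSet => row (Quot.out ed.1).1 (Quot.out ed.1).2)
    have hker : ∀ y z : V → ℝ, (y, z) ∈ LinearMap.ker L → (∀ v, y v = y v0) ∧
        (∀ v, z v = z v0) := by
      intro y z hyz
      rw [LinearMap.mem_ker] at hyz
      have hstep : ∀ v w, H.Adj v w →
        ((0 < (α v - α w) * (β v - β w) → y v = y w) ∧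
        ((α v - α w) * (β v - β w) < 0 → z v = z w)) := by
        intro v w hvw
        have h1 := congrFun hyz ⟨s(v, w), hvw⟩
        have h2 : (Quot.mk _ (Quot.out s(v, w)) : Sym2 V) = s(v, w) := Quot.out_eq _
        have h3 : s((Quot.out s(v, w)).1, (Quot.out s(v, w)).2) = s(v, w) := h2
        change row (Quot.out s(v, w)).1 (Quot.out s(v, w)).2 (y, z) = 0 at h1
        rw [Sym2.eq_iff] at h3
        rcases h3 with ⟨h4, h5⟩ | ⟨h4, h5⟩
        · rw [h4, h5] at h1
          constructor
          · intro hpos
            simp only [row] at h1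
            rw [if_pos hpos] at h1
            exact sub_eq_zero.1 h1
          · intro hneg
            simp only [row] at h1
            rw [if_neg (not_lt.2 hneg.le)] at h1
            exact sub_eq_zero.1 h1
        · rw [h4, h5] at h1
          constructor
          · intro hpos
            simp only [row] at h1
            rw [if_pos (by nlinarith)] at h1
            exact (sub_eq_zero.1 h1).symm
          · intro hneg
            simp only [row] at h1
            rw [if_neg (by rw [not_lt]; nlinarith)] at h1
            exact (sub_eq_zero.1 h1).symm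
      obtain ⟨t, ht⟩ := hrig (fun v => ((y v + z v) / 2) • A + ((y v - z v) / 2) • B) (by
        rw [hflex H hH]
        intro v w hvw
        have h1 := hstep v w hvw
        have hf : ∀ s t : ℝ, f (s • A + t • B) = s := by
          intro s t
          rw [map_add, map_smul, map_smul, hfA, hfB]; simp
        have hg : ∀ s t : ℝ, g (s • A + t • B) = t := by
          intro s t
          rw [map_add, map_smul, map_smul, hgA, hgB]; simp
        simp only [map_sub, hf, hg]
        constructor
        · intro hpos
          have := h1.1 hpos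
          rw [this]
          ring
        · intro hneg
          have := h1.2 hneg
          rw [this]
          ring)
      have hf : ∀ s t : ℝ, f (s • A + t • B) = s := by
        intro s t
        rw [map_add, map_smul, map_smul, hfA, hfB]; simp
      have hg : ∀ s t : ℝ, g (s • A + t • B) = t := by
        intro s t
        rw [map_add, map_smul, map_smul, hgA, hgB]; simp
      have e1 : ∀ v, (y v + z v) / 2 = f t := by
        intro v
        rw [← ht v, hf]
      have e2 : ∀ v, (y v - z v) / 2 = g t := by
        intro v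
        rw [← ht v, hg]
      constructor
      · intro v
        linarith [e1 v, e2 v, e1 v0, e2 v0]
      · intro v
        linarith [e1 v, e2 v, e1 v0, e2 v0]
    have hle : Module.finrank ℝ (LinearMap.ker L) ≤ 2 := by
      let M : LinearMap.ker L →ₗ[ℝ] (ℝ × ℝ) :=
        ((LinearMap.proj v0 ∘ₗ LinearMap.fst ℝ (V → ℝ) (V → ℝ)).prod
          (LinearMap.proj v0 ∘ₗ LinearMap.snd ℝ (V → ℝ) (V → ℝ))) ∘ₗ (LinearMap.ker L).subtype
      have hM : Function.Injective M := by
        rw [injective_iff_map_eq_zero]
        rintro ⟨⟨y, z⟩, hyz⟩ h0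
        have h1 : y v0 = 0 := congrArg Prod.fst h0
        have h2 : z v0 = 0 := congrArg Prod.snd h0
        obtain ⟨h3, h4⟩ := hker y z hyz
        apply Subtype.ext
        change (y, z) = 0
        have hy : y = 0 := by
          funext v
          rw [h3 v, h1]; rfl
        have hz : z = 0 := by
          funext v
          rw [h4 v, h2]; rfl
        rw [hy, hz]
        rfl
      have := LinearMap.finrank_le_finrank_of_injective hM
      rw [Module.finrank_prod, Module.finrank_self] at this
      exact this
    have h1 := LinearMap.finrank_range_add_finrank_ker L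
    have h2 : Module.finrank ℝ (LinearMap.range L) ≤ Fintype.card H.edgeSet := by
      have := Submodule.finrank_le (LinearMap.range L)
      rw [Module.finrank_fintype_fun_eq_card] at this
      exact this
    rw [Module.finrank_prod, Module.finrank_fintype_fun_eq_card] at h1
    omega

end frame

/-- classification of facet-swapping linear reflections -/
theorem swap_cases (A B : Pl) (hAB : LinearIndependent ℝ ![A, B]) (τ : Pl →ₗ[ℝ] Pl)
    (hτ : ∀ x, τ (τ x) = x) (hτ1 : τ ≠ LinearMap.id) (hτ2 : τ ≠ -LinearMap.id)
    (hP : τ '' quad A B = quad A B) (hswap : ¬ PreservesFacets A B τ) :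
    (τ A = A ∧ τ B = -B) ∨ (τ A = -A ∧ τ B = B) := by
  obtain ⟨f, g, hfA, hfB, hgA, hgB, hfg⟩ := exists_coords A B hAB
  have hconv : Convex ℝ {x : Pl | |f x| + |g x| ≤ 1} := by
    intro x hx y hy s t hs ht hst
    change |f (s • x + t • y)| + |g (s • x + t • y)| ≤ 1
    have hx' : |f x| + |g x| ≤ 1 := hx
    have hy' : |f y| + |g y| ≤ 1 := hy
    have h1 : |f (s • x + t • y)| ≤ s * |f x| + t * |f y| := by
      rw [map_add, map_smul, map_smul, smul_eq_mul, smul_eq_mul]
      refine (abs_add_le _ _).trans ?_
      rw [abs_mul, abs_mul, abs_of_nonneg hs, abs_of_nonneg ht]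
    have h2 : |g (s • x + t • y)| ≤ s * |g x| + t * |g y| := by
      rw [map_add, map_smul, map_smul, smul_eq_mul, smul_eq_mul]
      refine (abs_add_le _ _).trans ?_
      rw [abs_mul, abs_mul, abs_of_nonneg hs, abs_of_nonneg ht]
    nlinarith [mul_le_mul_of_nonneg_left hx' hs, mul_le_mul_of_nonneg_left hy' ht]
  have hsub : quad A B ⊆ {x : Pl | |f x| + |g x| ≤ 1} := by
    apply convexHull_min _ hconv
    intro x hx
    change |f x| + |g x| ≤ 1
    simp only [Set.mem_insert_iff, Set.mem_singleton_iff] at hx
    rcases hx with rfl | rfl | rfl | rfl <;> simp [hfA, hfB, hgA, hgB]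
  have hAm : A ∈ quad A B := subset_convexHull ℝ _ (by simp)
  have hBm : B ∈ quad A B := subset_convexHull ℝ _ (by simp)
  have hτA : |f (τ A)| + |g (τ A)| ≤ 1 := hsub (by rw [← hP]; exact ⟨A, hAm, rfl⟩)
  have hτB : |f (τ B)| + |g (τ B)| ≤ 1 := hsub (by rw [← hP]; exact ⟨B, hBm, rfl⟩)
  set a := f (τ A) with ha
  set b := g (τ A) with hb
  set c := f (τ B) with hc
  set d := g (τ B) with hd
  have eA : τ A = a • A + b • B := hfg (τ A)
  have eB : τ B = c • A + d • B := hfg (τ B)
  have e1 : a * a + b * c = 1 := by
    have := congrArg f (hτ A)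
    rw [eA, map_add, map_smul, map_smul, eA, eB] at this
    simp only [map_add, map_smul, hfA, hfB, smul_eq_mul] at this
    linarith
  have e4 : b * c + d * d = 1 := by
    have := congrArg g (hτ B)
    rw [eB, map_add, map_smul, map_smul, eA, eB] at this
    simp only [map_add, map_smul, hgA, hgB, smul_eq_mul] at this
    linarith
  have ha1 : |a| ≤ 1 := by linarith [abs_nonneg b]
  have hb1 : |b| ≤ 1 := by linarith [abs_nonneg a]
  have hc1 : |c| ≤ 1 := by linarith [abs_nonneg d]
  have hd1 : |d| ≤ 1 := by linarith [abs_nonneg c]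
  have hbc : b * c ≤ |b| := by
    have h1 : b * c ≤ |b * c| := le_abs_self _
    rw [abs_mul] at h1
    nlinarith [abs_nonneg b, abs_nonneg c]
  have haa : a * a = |a| * |a| := (abs_mul_abs_self a).symm
  have hcase : |a| = 0 ∨ |a| = 1 := by
    have h1 : |a| * (1 - |a|) ≤ 0 := by nlinarith
    have h2 : 0 ≤ |a| * (1 - |a|) := mul_nonneg (abs_nonneg a) (by linarith)
    have h3 : |a| * (1 - |a|) = 0 := le_antisymm h1 h2
    rcases mul_eq_zero.1 h3 with h | h
    · exact Or.inl h
    · exact Or.inr (by linarith)
  rcases hcase with h0 | h1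
  · exfalso
    apply hswap
    have ha0 : a = 0 := abs_eq_zero.1 h0
    rw [ha0] at e1 eA
    have hbc1 : b * c = 1 := by linarith
    have hd0 : d = 0 := by
      have : d * d = 0 := by linarith
      exact mul_self_eq_zero.1 this
    rw [hd0] at eB
    rw [zero_smul, zero_add] at eA
    rw [zero_smul, add_zero] at eB
    have hb0 : |b| = 1 := by
      have h2 : |b| * |c| = 1 := by rw [← abs_mul, hbc1, abs_one]
      nlinarith [abs_nonneg b, abs_nonneg c]
    have hbs : b = 1 ∨ b = -1 := by
      rcases abs_cases b with h | h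
      · left; linarith
      · right; linarith
    have himg : ∀ C D : Pl, τ '' segment ℝ C D = segment ℝ (τ C) (τ D) :=
      fun C D => image_segment ℝ τ.toAffineMap C D
    rcases hbs with hb' | hb'
    · have hc' : c = 1 := by rw [hb', one_mul] at hbc1; exact hbc1
      rw [hb', one_smul] at eA
      rw [hc', one_smul] at eB
      intro e he
      rw [himg]
      simp only [facetEnds, Set.mem_insert_iff, Set.mem_singleton_iff] at he
      rcases he with rfl | rfl | rfl | rfl
      · left; dsimp only; rw [eA, eB, segment_symm]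
      · right; dsimp only; rw [map_neg, eA, eB, neg_neg, segment_symm]
      · left; dsimp only; rw [map_neg, map_neg, eA, eB, segment_symm]
      · right; dsimp only; rw [map_neg, eA, eB, neg_neg, segment_symm]
    · have hc' : c = -1 := by rw [hb'] at hbc1; linarith
      rw [hb', neg_smul, one_smul] at eA
      rw [hc', neg_smul, one_smul] at eB
      intro e he
      rw [himg]
      simp only [facetEnds, Set.mem_insert_iff, Set.mem_singleton_iff] at he
      rcases he with rfl | rfl | rfl | rfl
      · right; dsimp only; rw [eA, eB, segment_symm]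
      · left; dsimp only; rw [map_neg, eA, eB, neg_neg, segment_symm]
      · right; dsimp only; rw [map_neg, map_neg, eA, eB, segment_symm]
      · left; dsimp only; rw [map_neg, eA, eB, neg_neg, segment_symm]
  · have hb0 : b = 0 := by
      have : |b| = 0 := le_antisymm (by linarith) (abs_nonneg b)
      exact abs_eq_zero.1 this
    rw [hb0] at eA e4
    have hdd : d * d = 1 := by linarith
    have hd2 : |d| = 1 := by
      have h2 : |d| * |d| = 1 := by rw [abs_mul_abs_self]; exact hdd
      nlinarith [abs_nonneg d]
    have hc0 : c = 0 := by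
      have : |c| = 0 := le_antisymm (by linarith) (abs_nonneg c)
      exact abs_eq_zero.1 this
    rw [hc0] at eB
    rw [zero_smul, add_zero] at eA
    rw [zero_smul, zero_add] at eB
    have has : a = 1 ∨ a = -1 := by
      rcases abs_cases a with h | h
      · left; linarith
      · right; linarith
    have hds : d = 1 ∨ d = -1 := by
      rcases abs_cases d with h | h
      · left; linarith
      · right; linarith
    rcases has with ha' | ha' <;> rcases hds with hd' | hd'
    · exfalso
      apply hτ1
      apply LinearMap.ext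
      intro x
      rw [ha', one_smul] at eA
      rw [hd', one_smul] at eB
      rw [LinearMap.id_apply]
      conv_lhs => rw [hfg x, map_add, map_smul, map_smul, eA, eB, ← hfg x]
    · left
      rw [ha', one_smul] at eA
      rw [hd', neg_smul, one_smul] at eB
      exact ⟨eA, eB⟩
    · right
      rw [ha', neg_smul, one_smul] at eA
      rw [hd', one_smul] at eB
      exact ⟨eA, eB⟩
    · exfalso
      apply hτ2
      apply LinearMap.ext
      intro x
      rw [ha', neg_smul, one_smul] at eA
      rw [hd', neg_smul, one_smul] at eB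
      rw [LinearMap.neg_apply, LinearMap.id_apply]
      conv_lhs => rw [hfg x, map_add, map_smul, map_smul, eA, eB, smul_neg, smul_neg, ← neg_add,
        ← hfg x]

/-- the combinatorial theorem in terms of `G` -/
theorem exists_ab {V : Type} [Fintype V] (G : SimpleGraph V) (hG : Tight22 G) (θ : G ≃g G)
    (hθ : ∀ v, θ (θ v) = v) (hfix : ∀ v w, G.Adj v w → s(θ v, θ w) ≠ s(v, w)) :
    ∃ a b : V → ℝ, (∀ v, a (θ v) = a v) ∧ (∀ v, b (θ v) = - b v) ∧
      (∀ v w, G.Adj v w → (a v - a w) * (b v - b w) ≠ 0) ∧
      (∀ h : V → ℝ, (∀ v w, G.Adj v w → 0 < (a v - a w) * (b v - b w) → h v = h w) →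
        ∀ v w, h v = h w) ∧
      (∀ h : V → ℝ, (∀ v w, G.Adj v w → (a v - a w) * (b v - b w) < 0 → h v = h w) →
        ∀ v w, h v = h w) := by
  classical
  obtain ⟨hcard, hsub⟩ := hG
  let μ : Sym2 V → ℕ := fun e => if e ∈ G.edgeSet then 1 else 0
  have hμ1 : ∀ v w, G.Adj v w → μ s(v, w) = 1 := fun v w h => if_pos h
  have hμ0 : ∀ v w, ¬ G.Adj v w → μ s(v, w) = 0 := fun v w h => if_neg h
  have hii : ∀ X : Finset V, H789R4.ii μ X =
      (X.sym2.filter (fun e => e ∈ G.edgeSet)).card := by
    intro X
    rw [H789R4.ii, Finset.card_filter]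
  have hinv : ∀ e : Sym2 V, μ (e.map θ) = μ e := by
    intro e
    induction e using Sym2.ind with
    | _ u w =>
      change μ s(θ u, θ w) = μ s(u, w)
      by_cases h : G.Adj u w
      · rw [hμ1 u w h, hμ1 _ _ (θ.map_adj_iff.2 h)]
      · rw [hμ0 u w h, hμ0 _ _ (fun h' => h (θ.map_adj_iff.1 h'))]
  have hA : H789R4.Adm (θ : V → V) Finset.univ μ := by
    refine ⟨fun _ _ => Finset.mem_univ _, fun x => hμ0 x x G.irrefl, hinv, ?_, ?_, ?_⟩
    · intro e he
      induction e using Sym2.ind with
      | _ u w =>
        by_cases h : G.Adj u w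
        · exact absurd he (hfix u w h)
        · rw [hμ0 u w h]
          exact ⟨0, rfl⟩
    · intro X _ hX
      have h1 := hsub ((⊤ : G.Subgraph).induce (X : Set V)) (by
        rw [SimpleGraph.Subgraph.induce_verts]
        exact hX)
      have h2 : ((⊤ : G.Subgraph).induce (X : Set V)).edgeSet =
          ((X.sym2.filter (fun e => e ∈ G.edgeSet) : Finset (Sym2 V)) : Set (Sym2 V)) := by
        ext e
        induction e using Sym2.ind with
        | _ u w =>
          rw [Finset.mem_coe, Finset.mem_filter, Finset.mk_mem_sym2_iff,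
            SimpleGraph.Subgraph.mem_edgeSet, SimpleGraph.Subgraph.induce_adj]
          simp only [Finset.mem_coe, SimpleGraph.Subgraph.top_adj, SimpleGraph.mem_edgeSet]
          tauto
      rw [SimpleGraph.Subgraph.induce_verts, h2, Set.ncard_coe_finset, Set.ncard_coe_finset] at h1
      rw [hii]
      exact h1
    · rw [hii, Finset.card_univ, ← hcard]
      congr 1
      rw [← Set.ncard_coe_finset]
      congr 1
      ext e
      rw [Finset.mem_coe, Finset.mem_filter]
      constructor
      · exact fun h => h.2
      · intro h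
        refine ⟨?_, h⟩
        rw [Finset.mem_sym2_iff]
        exact fun _ _ => Finset.mem_univ _
  obtain ⟨a, b, hGen, hConn⟩ := H789R4.main_ind (θ : V → V) hθ _ Finset.univ μ rfl hA
  have hTT : ∀ x y, H789R4.TT μ a b x y → G.Adj x y ∧ 0 < (a x - a y) * (b x - b y) := by
    intro x y h
    by_cases hxy : G.Adj x y
    · rcases h with h | h
      · rw [hμ1 x y hxy] at h
        omega
      · exact ⟨hxy, h.2⟩
    · exfalso
      unfold H789R4.TT at h
      rw [hμ0 x y hxy] at h
      omega
  have hT : ∀ h : V → ℝ, (∀ v w, G.Adj v w → 0 < (a v - a w) * (b v - b w) → h v = h w) →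
        ∀ v w, h v = h w := by
    intro h hh v w
    have h1 := hConn (fun x => decide (h x = h w)) (by
      intro x _ y _ hxy
      obtain ⟨h2, h3⟩ := hTT x y hxy
      change decide (h x = h w) = decide (h y = h w)
      rw [hh x y h2 h3]) v (Finset.mem_univ _) w (Finset.mem_univ _)
    simpa using h1
  refine ⟨a, b, hGen.ha, hGen.hb, ?_, hT, ?_⟩
  · intro v w hvw
    exact H789R4.sl_ne (θ : V → V) hGen (Finset.mem_univ _) (Finset.mem_univ _) hvw.ne
      (hfix v w hvw) hθ
  · intro h hh v w
    have h1 := hT (fun x => h (θ x)) (by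
      intro x y hxy hpos
      apply hh (θ x) (θ y) (θ.map_adj_iff.2 hxy)
      rw [hGen.ha, hGen.ha, hGen.hb, hGen.hb]
      linarith) (θ v) (θ w)
    simp only [hθ] at h1
    exact h1

/-- Let the plane carry the norm whose unit ball is a centrally symmetric convex quadrilateral,
let `τ` be a linear reflection preserving it and swapping its facets, and let `θ` be an action of
the group of order two on a `(2,2)`-tight graph without fixed edges. Then there is a well-positioned,
isostatic, symmetric placement. -/
theorem result (V : Type) [Fintype V] (G : SimpleGraph V) (hG : Tight22 G)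
    (θ : G ≃g G) (hθ : ∀ v, θ (θ v) = v)
    (hfix : ∀ v w, G.Adj v w → s(θ v, θ w) ≠ s(v, w))
    (A B : Pl) (hAB : LinearIndependent ℝ ![A, B])
    (τ : Pl →ₗ[ℝ] Pl) (hτ : ∀ x, τ (τ x) = x) (hτ1 : τ ≠ LinearMap.id)
    (hτ2 : τ ≠ -LinearMap.id) (hP : τ '' quad A B = quad A B)
    (hswap : ¬ PreservesFacets A B τ) :
    ∃ p : V → Pl, (∀ v, p (θ v) = τ (p v)) ∧ WellPositioned A B G p ∧ Isostatic A B G p := by
  obtain ⟨a, b, ha, hb, hne, hT, hR⟩ := exists_ab G hG θ hθ hfix
  rcases swap_cases A B hAB τ hτ hτ1 hτ2 hP hswap with ⟨h1, h2⟩ | ⟨h1, h2⟩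
  · refine ⟨fun v => a v • A + b v • B, ?_, frame_main A B hAB G hG.1 a b hne hT hR⟩
    intro v
    dsimp only
    rw [map_add, map_smul, map_smul, h1, h2, ha, hb, neg_smul, smul_neg]
  · refine ⟨fun v => b v • A + a v • B, ?_, frame_main A B hAB G hG.1 b a ?_ ?_ ?_⟩
    · intro v
      dsimp only
      rw [map_add, map_smul, map_smul, h1, h2, ha, hb, neg_smul, smul_neg]
    · intro v w hvw
      rw [mul_comm]
      exact hne v w hvw
    · intro h hh
      apply hT h
      intro v w hvw hpos
      rw [mul_comm] at hpos
      exact hh v w hvw hpos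
    · intro h hh
      apply hR h
      intro v w hvw hneg
      rw [mul_comm] at hneg
      exact hh v w hvw hneg

end Pool.Agent.Results.MP_236c69_co.FacetSwap
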